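import Pool.Agent.W349.UR.NU1

/-!
Project UR: asymptotics of Volterra's function in strips.
-/

set_option autoImplicit false

namespace Pool.Agent.W349.UR

open Complex MeasureTheory Filter Topology Set
open Pool.Agent.W189.ML Pool.Agent.W187.UR

/-- horizontal lines -/
theorem hor {γ : ℝ} (hκ : 0 < Real.cos γ) {s t : ℝ} (hs : 0 ≤ s) (hst : s ≤ t) :
    ‖ff (t + γ * I) - ff (s + γ * I)‖ ≤
      C0 / Real.cos γ * Real.exp (-(Real.exp s * Real.cos γ)) := by
  set κ := Real.cos γ with hκd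
  have hre : ∀ x : ℝ, ((x : ℂ) + γ * I).re = x := fun x => by simp
  have him : ∀ x : ℝ, ((x : ℂ) + γ * I).im = γ := fun x => by simp
  have hd : ∀ x : ℝ, HasDerivAt (fun x : ℝ => ff (x + γ * I) - ff (s + γ * I))
      (exp (-exp (x + γ * I)) * qq (x + γ * I)) x := by
    intro x
    have h1 : HasDerivAt (fun x : ℝ => (x : ℂ) + γ * I) 1 x := by
      have := (Complex.ofRealCLM.hasDerivAt (x := x)).add_const ((γ : ℂ) * I)
      simpa using this
    have h2 := (ff_deriv ((x : ℂ) + γ * I)).comp x h1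
    simpa using h2.sub_const (ff (s + γ * I))
  have hB : ∀ x : ℝ, HasDerivAt (fun x : ℝ => C0 / κ * Real.exp (-(Real.exp s * κ)) -
      C0 / κ * Real.exp (-(Real.exp x * κ)))
      (C0 * Real.exp x * Real.exp (-(Real.exp x * κ))) x := by
    intro x
    have h1 : HasDerivAt (fun x : ℝ => Real.exp (-(Real.exp x * κ)))
        (Real.exp (-(Real.exp x * κ)) * (-(Real.exp x * κ))) x :=
      (((Real.hasDerivAt_exp x).mul_const κ).neg).exp
    have h2 := (h1.const_mul (C0 / κ)).const_sub (C0 / κ * Real.exp (-(Real.exp s * κ)))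
    refine h2.congr_deriv ?_
    have hκ0 : κ ≠ 0 := hκ.ne'
    field_simp
  have h := image_norm_le_of_norm_deriv_right_le_deriv_boundary
    (f := fun x : ℝ => ff (x + γ * I) - ff (s + γ * I)) (a := s) (b := t)
    (f' := fun x : ℝ => exp (-exp (x + γ * I)) * qq (x + γ * I))
    (fun x _ => (hd x).continuousAt.continuousWithinAt)
    (fun x _ => (hd x).hasDerivWithinAt)
    (B := fun x : ℝ => C0 / κ * Real.exp (-(Real.exp s * κ)) - C0 / κ * Real.exp (-(Real.exp x * κ)))
    (B' := fun x : ℝ => C0 * Real.exp x * Real.exp (-(Real.exp x * κ)))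
    (by simp) hB (fun x hx => by
      have h3 := norm_ff' (z := (x : ℂ) + γ * I) (by rw [hre]; linarith [hx.1])
      rw [hre, him] at h3
      exact h3) (x := t) ⟨hst, le_rfl⟩
  refine h.trans ?_
  have h4 : 0 ≤ C0 / κ * Real.exp (-(Real.exp t * κ)) := by
    have := C0_pos
    positivity
  linarith

/-- vertical segments -/
theorem ver {γ : ℝ} (h0 : 0 ≤ γ) (h1 : γ < Real.pi / 2) {x : ℝ} (hx : 0 ≤ x) :
    ‖ff (x + γ * I) - ff x‖ ≤
      (C0 * Real.exp x * Real.exp (-(Real.exp x * Real.cos γ))) * γ := by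
  have hre : ∀ y : ℝ, ((x : ℂ) + y * I).re = x := fun x => by simp
  have him : ∀ y : ℝ, ((x : ℂ) + y * I).im = y := fun x => by simp
  have hd : ∀ y : ℝ, HasDerivAt (fun y : ℝ => ff (x + y * I))
      (exp (-exp (x + y * I)) * qq (x + y * I) * I) y := by
    intro y
    have h1 : HasDerivAt (fun y : ℝ => (x : ℂ) + y * I) I y := by
      have := ((Complex.ofRealCLM.hasDerivAt (x := y)).mul_const I).const_add (x : ℂ)
      simpa using this
    exact (ff_deriv ((x : ℂ) + y * I)).comp y h1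
  have h := Convex.norm_image_sub_le_of_norm_hasDerivWithin_le
    (f := fun y : ℝ => ff (x + y * I)) (f' := fun y : ℝ => exp (-exp (x + y * I)) *
      qq (x + y * I) * I) (s := Icc 0 γ) (x := 0) (y := γ)
    (C := C0 * Real.exp x * Real.exp (-(Real.exp x * Real.cos γ)))
    (fun y _ => (hd y).hasDerivWithinAt) (fun y hy => by
      have h3 := norm_ff' (z := (x : ℂ) + y * I) (by rw [hre]; exact hx)
      rw [hre, him] at h3
      rw [norm_mul, Complex.norm_I, mul_one]
      refine h3.trans (mul_le_mul_of_nonneg_left ?_ (by have := C0_pos; positivity))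
      apply Real.exp_le_exp.2
      have h4 : Real.cos γ ≤ Real.cos y :=
        Real.cos_le_cos_of_nonneg_of_le_pi hy.1 (by linarith [Real.pi_pos]) hy.2
      have := mul_le_mul_of_nonneg_left h4 (Real.exp_pos x).le
      linarith) (convex_Icc _ _) ⟨le_rfl, h0⟩ ⟨h0, le_rfl⟩
  simpa [abs_of_nonneg h0] using h

theorem tend1 {κ : ℝ} (hκ : 0 < κ) :
    Tendsto (fun n : ℕ => Real.exp n * Real.exp (-(Real.exp n * κ))) atTop (𝓝 0) := by
  have h1 : Tendsto (fun x : ℝ => x ^ 1 * Real.exp (-x)) atTop (𝓝 0) :=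
    Real.tendsto_pow_mul_exp_neg_atTop_nhds_zero 1
  have h2 : Tendsto (fun n : ℕ => Real.exp n * κ) atTop atTop :=
    (Real.tendsto_exp_atTop.comp tendsto_natCast_atTop_atTop).atTop_mul_const hκ
  have h3 := (h1.comp h2).const_mul κ⁻¹
  rw [mul_zero] at h3
  refine h3.congr fun n => ?_
  simp only [Function.comp_apply, pow_one]
  field_simp

theorem tend2 {κ : ℝ} (hκ : 0 < κ) :
    Tendsto (fun n : ℕ => Real.exp (-(Real.exp n * κ))) atTop (𝓝 0) := by
  have h2 : Tendsto (fun n : ℕ => Real.exp n * κ) atTop atTop :=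
    (Real.tendsto_exp_atTop.comp tendsto_natCast_atTop_atTop).atTop_mul_const hκ
  exact Real.tendsto_exp_neg_atTop_nhds_zero.comp h2

/-! ### the real axis -/

theorem Fz_real (k : ℕ) (x u : ℝ) :
    Fz k x u = ((u ^ k * (Real.exp (x * u) * om u) : ℝ) : ℂ) := by
  unfold Fz
  push_cast
  rfl

theorem NU_real (x : ℝ) : NU x = ((∫ u in Ioi (0 : ℝ), Real.exp (x * u) * om u : ℝ) : ℂ) := by
  rw [NU_eq]
  have h := integral_ofReal (𝕜 := ℂ) (μ := volume.restrict (Ioi (0 : ℝ)))
    (f := fun u => Real.exp (x * u) * om u)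
  refine Eq.trans (integral_congr_ae (ae_of_all _ fun u => ?_)) h
  rw [Fz_real, pow_zero, one_mul]
  rfl

theorem qq_real (x : ℝ) : qq x = ((∫ u in Ioc (0 : ℝ) 1, u * (Real.exp (x * u) * om u) : ℝ) : ℂ) := by
  rw [qq]
  have h := integral_ofReal (𝕜 := ℂ) (μ := volume.restrict (Ioc (0 : ℝ) 1))
    (f := fun u => u * (Real.exp (x * u) * om u))
  refine Eq.trans (integral_congr_ae (ae_of_all _ fun u => ?_)) h
  rw [Fz_real, pow_one]
  rfl

theorem ff_real (x : ℝ) : ff x = ((Real.exp (-Real.exp x) *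
    ∫ u in Ioi (0 : ℝ), Real.exp (x * u) * om u : ℝ) : ℂ) := by
  rw [ff, NU_real]
  push_cast
  rfl

theorem ff_mono : Monotone fun x : ℝ => (ff x).re := by
  have hd : ∀ x : ℝ, HasDerivAt (fun x : ℝ => (ff x).re)
      (Real.exp (-Real.exp x) * ∫ u in Ioc (0 : ℝ) 1, u * (Real.exp (x * u) * om u)) x := by
    intro x
    have h1 : HasDerivAt (fun x : ℝ => ff x) (exp (-exp (x : ℂ)) * qq x) x :=
      (ff_deriv (x : ℂ)).comp_ofReal
    have h3 := Complex.reCLM.hasFDerivAt.comp_hasDerivAt x h1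
    refine h3.congr_deriv ?_
    rw [qq_real]
    have h4 : exp (-exp (x : ℂ)) = ((Real.exp (-Real.exp x) : ℝ) : ℂ) := by push_cast; rfl
    rw [h4, ← Complex.ofReal_mul]
    exact Complex.ofReal_re _
  refine monotone_of_deriv_nonneg (fun x => (hd x).differentiableAt) fun x => ?_
  rw [(hd x).deriv]
  refine mul_nonneg (Real.exp_pos _).le (setIntegral_nonneg measurableSet_Ioc fun u hu => ?_)
  have := om_nonneg hu.1.le
  have := hu.1.le
  positivity

theorem ff_zero_pos : 0 < (ff (0 : ℝ)).re := by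
  rw [ff_real, Complex.ofReal_re]
  refine mul_pos (Real.exp_pos _) ?_
  have hint : IntegrableOn (fun u : ℝ => Real.exp (0 * u) * om u) (Ioi 0) := by
    have h : IntegrableOn (fun u => ‖Fz 0 0 u‖) (Ioi 0) := (Fz_int (k := 0) (by omega) 0).norm
    refine h.congr_fun (fun u hu => ?_) measurableSet_Ioi
    dsimp only
    rw [norm_Fz 0 0 (le_of_lt hu)]
    simp
  rw [setIntegral_pos_iff_support_of_nonneg_ae ?_ hint]
  · have hsub : Ioi (0 : ℝ) ⊆ Function.support (fun u : ℝ => Real.exp (0 * u) * om u) ∩ Ioi 0 := by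
      intro u hu
      refine ⟨?_, hu⟩
      rw [Function.mem_support]
      exact (mul_pos (Real.exp_pos _) (om_pos (le_of_lt hu))).ne'
    refine lt_of_lt_of_le ?_ (measure_mono hsub)
    simp
  · filter_upwards [ae_restrict_mem measurableSet_Ioi] with u hu
    exact mul_nonneg (Real.exp_pos _).le (om_nonneg (le_of_lt hu))

theorem nu : S_NU := by
  -- the limit on the real axis
  have hcos0 : (0 : ℝ) < Real.cos 0 := by simp
  have hC0 := C0_pos
  have hcau : CauchySeq fun n : ℕ => ff ((n : ℝ) : ℂ) := by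
    refine cauchySeq_of_le_tendsto_0' (fun n : ℕ => C0 / Real.cos 0 *
      Real.exp (-(Real.exp n * Real.cos 0))) (fun n m hnm => ?_) ?_
    · rw [dist_comm, dist_eq_norm]
      have h := hor hcos0 (s := n) (t := m) (Nat.cast_nonneg n) (by exact_mod_cast hnm)
      simpa using h
    · have := (tend2 hcos0).const_mul (C0 / Real.cos 0)
      rwa [mul_zero] at this
  obtain ⟨A, hA⟩ := cauchySeq_tendsto_of_complete hcau
  have hAim : A.im = 0 := by
    have h1 : Tendsto (fun n : ℕ => (ff ((n : ℝ) : ℂ)).im) atTop (𝓝 A.im) :=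
      (Complex.continuous_im.tendsto A).comp hA
    have h2 : (fun n : ℕ => (ff ((n : ℝ) : ℂ)).im) = fun _ => 0 := by
      funext n
      rw [ff_real, Complex.ofReal_im]
    rw [h2] at h1
    exact (tendsto_nhds_unique h1 tendsto_const_nhds)
  have hAre : 0 < A.re := by
    have h1 : Tendsto (fun n : ℕ => (ff ((n : ℝ) : ℂ)).re) atTop (𝓝 A.re) :=
      (Complex.continuous_re.tendsto A).comp hA
    refine lt_of_lt_of_le ff_zero_pos (ge_of_tendsto h1 (Eventually.of_forall fun n => ?_))
    exact ff_mono (Nat.cast_nonneg n)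
  have hAeq : A = ((A.re : ℝ) : ℂ) := by
    apply Complex.ext
    · simp
    · simp [hAim]
  refine ⟨A.re, hAre, fun γ h0 h1 => ?_⟩
  have hκ : 0 < Real.cos γ := Real.cos_pos_of_mem_Ioo ⟨by linarith [Real.pi_pos], h1⟩
  refine ⟨C0 / Real.cos γ, fun x hx => ?_⟩
  -- the limit on the line
  have hAγ : Tendsto (fun n : ℕ => ff ((n : ℝ) + γ * I)) atTop (𝓝 A) := by
    have h2 : Tendsto (fun n : ℕ => ff ((n : ℝ) + γ * I) - ff ((n : ℝ) : ℂ)) atTop (𝓝 0) := by
      rw [tendsto_zero_iff_norm_tendsto_zero]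
      refine squeeze_zero (g := fun n : ℕ => (C0 * γ) * (Real.exp n *
        Real.exp (-(Real.exp n * Real.cos γ)))) (fun n => norm_nonneg _) (fun n => ?_) ?_
      · refine (ver h0 h1 (Nat.cast_nonneg n)).trans (le_of_eq ?_)
        ring
      · have := (tend1 hκ).const_mul (C0 * γ)
        rwa [mul_zero] at this
    have h3 := h2.add hA
    rw [zero_add] at h3
    refine h3.congr fun n => ?_
    ring
  have hdist : ‖A - ff (x + γ * I)‖ ≤
      C0 / Real.cos γ * Real.exp (-(Real.exp x * Real.cos γ)) := by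
    have h2 : Tendsto (fun n : ℕ => ‖ff ((n : ℝ) + γ * I) - ff (x + γ * I)‖) atTop
        (𝓝 ‖A - ff (x + γ * I)‖) := (hAγ.sub_const _).norm
    refine le_of_tendsto h2 ?_
    obtain ⟨N, hN⟩ := exists_nat_ge x
    filter_upwards [eventually_ge_atTop N] with n hn
    refine hor hκ (by linarith) (hN.trans ?_)
    exact_mod_cast hn
  set z : ℂ := x + γ * I with hz
  have hzre : z.re = x := by simp [hz]
  have hzim : z.im = γ := by simp [hz]
  have hff : NU z = exp (exp z) * ff z := by
    unfold ff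
    rw [← mul_assoc, ← Complex.exp_add, add_neg_cancel, Complex.exp_zero, one_mul]
  rw [← hAeq, hff]
  have h5 : exp (exp z) * ff z - A * exp (exp z) = -(exp (exp z) * (A - ff z)) := by ring
  rw [h5, norm_neg, norm_mul, Complex.norm_exp, Complex.exp_re, hzre, hzim]
  calc Real.exp (Real.exp x * Real.cos γ) * ‖A - ff z‖
      ≤ Real.exp (Real.exp x * Real.cos γ) *
        (C0 / Real.cos γ * Real.exp (-(Real.exp x * Real.cos γ))) :=
        mul_le_mul_of_nonneg_left hdist (Real.exp_pos _).le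
    _ = C0 / Real.cos γ * (Real.exp (Real.exp x * Real.cos γ) *
        Real.exp (-(Real.exp x * Real.cos γ))) := by ring
    _ = C0 / Real.cos γ := by rw [← Real.exp_add, add_neg_cancel, Real.exp_zero, mul_one]

end Pool.Agent.W349.UR
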