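import Pool.Agent.W187.UR.Stm2
import Pool.Agent.W189.ML.Grow

/-!
Project UR: Volterra's function, basic properties.
-/

set_option autoImplicit false

namespace Pool.Agent.W349.UR

open Complex MeasureTheory Filter Topology Set
open Pool.Agent.W189.ML Pool.Agent.W187.UR

theorem om_pos {v : ℝ} (hv : 0 ≤ v) : 0 < om v := by
  unfold om
  have := Real.Gamma_pos_of_pos (by linarith : 0 < 1 + v)
  positivity

theorem om_succ {u : ℝ} (hu : 0 ≤ u) : (u + 1) * om (u + 1) = om u := by
  unfold om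
  rw [show (1 : ℝ) + (u + 1) = (1 + u) + 1 by ring, Real.Gamma_add_one (by linarith : (1 : ℝ) + u ≠ 0)]
  have h1 := Real.Gamma_pos_of_pos (by linarith : 0 < 1 + u)
  have h2 : (1 : ℝ) + u ≠ 0 := by linarith
  field_simp
  ring

theorem om_contOn : ContinuousOn om (Ioi 0) := by
  intro u hu
  have hu' : (0 : ℝ) < u := hu
  have h1 := Real.Gamma_pos_of_pos (by linarith : 0 < 1 + u)
  have h2 : ContinuousAt Real.Gamma (1 + u) := by
    refine (Real.differentiableAt_Gamma fun m => ?_).continuousAt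
    have : (0 : ℝ) ≤ m := m.cast_nonneg
    linarith
  have h3 : ContinuousAt (fun u : ℝ => Real.Gamma (1 + u)) u :=
    ContinuousAt.comp (f := fun u : ℝ => 1 + u) (g := Real.Gamma) h2 (by fun_prop)
  exact (h3.inv₀ h1.ne').continuousWithinAt

/-- the integrand -/
noncomputable def Fz (k : ℕ) (z : ℂ) (u : ℝ) : ℂ := (u : ℂ) ^ k * (exp (z * u) * (om u : ℂ))

theorem Fz_cont (k : ℕ) (z : ℂ) : ContinuousOn (Fz k z) (Ioi 0) := by
  unfold Fz
  refine ContinuousOn.mul (by fun_prop) (ContinuousOn.mul (by fun_prop) ?_)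
  exact Complex.continuous_ofReal.comp_continuousOn om_contOn

theorem Fz_meas (k : ℕ) (z : ℂ) : AEStronglyMeasurable (Fz k z) (volume.restrict (Ioi 0)) :=
  (Fz_cont k z).aestronglyMeasurable measurableSet_Ioi

theorem norm_Fz (k : ℕ) (z : ℂ) {u : ℝ} (hu : 0 ≤ u) :
    ‖Fz k z u‖ = u ^ k * (Real.exp (z.re * u) * om u) := by
  unfold Fz
  rw [norm_mul, norm_mul, norm_pow, Complex.norm_of_nonneg hu, Complex.norm_exp,
    Complex.norm_of_nonneg (om_pos hu).le]
  congr 3
  simp

/-- the constant -/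
noncomputable def KK (a : ℝ) : ℝ := Real.exp (Real.exp (a + 2)) + 1

theorem KK_pos (a : ℝ) : 0 < KK a := by unfold KK; positivity

theorem norm_Fz_le {k : ℕ} (hk : k ≤ 1) {z : ℂ} {a : ℝ} (hz : z.re ≤ a) (ha : 0 ≤ a) {u : ℝ}
    (hu : 0 ≤ u) : ‖Fz k z u‖ ≤ KK a * Real.exp (-u) := by
  rw [norm_Fz k z hu]
  have h1 := om_le (a := a + 2) (by linarith) hu
  have h2 : u ^ k ≤ Real.exp u := by
    have := Real.add_one_le_exp u
    interval_cases k
    · rw [pow_zero]; linarith
    · rw [pow_one]; linarith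
  have h3 : Real.exp (z.re * u) ≤ Real.exp (a * u) :=
    Real.exp_le_exp.2 (mul_le_mul_of_nonneg_right hz hu)
  calc u ^ k * (Real.exp (z.re * u) * om u)
      ≤ Real.exp u * (Real.exp (a * u) * (KK a * Real.exp (-((a + 2) * u)))) := by
        apply mul_le_mul h2 _ _ (Real.exp_pos _).le
        · exact mul_le_mul h3 h1 (om_nonneg hu) (Real.exp_pos _).le
        · exact mul_nonneg (Real.exp_pos _).le (om_nonneg hu)
    _ = KK a * (Real.exp u * Real.exp (a * u) * Real.exp (-((a + 2) * u))) := by ring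
    _ = KK a * Real.exp (-u) := by
        rw [← Real.exp_add, ← Real.exp_add]
        congr 2
        ring

theorem Fz_int {k : ℕ} (hk : k ≤ 1) (z : ℂ) : IntegrableOn (Fz k z) (Ioi 0) := by
  refine Integrable.mono' ((integrableOn_exp_neg_Ioi 0).const_mul (KK |z.re|)) (Fz_meas k z) ?_
  filter_upwards [ae_restrict_mem measurableSet_Ioi] with u hu
  exact norm_Fz_le hk (le_abs_self _) (abs_nonneg _) (le_of_lt hu)

theorem NU_eq (z : ℂ) : NU z = ∫ u in Ioi (0 : ℝ), Fz 0 z u := by
  unfold NU Fz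
  simp

theorem NU_deriv (z : ℂ) : HasDerivAt NU (∫ u in Ioi (0 : ℝ), Fz 1 z u) z := by
  have h := (hasDerivAt_integral_of_dominated_loc_of_deriv_le
    (μ := volume.restrict (Ioi (0 : ℝ))) (F := fun z u => Fz 0 z u) (F' := fun z u => Fz 1 z u)
    (x₀ := z) (s := Metric.ball z 1) (bound := fun u => KK (|z.re| + 1) * Real.exp (-u))
    (Metric.ball_mem_nhds z one_pos) (Eventually.of_forall fun w => Fz_meas 0 w)
    (Fz_int (by omega) z) (Fz_meas 1 z) ?_ ((integrableOn_exp_neg_Ioi 0).const_mul _) ?_).2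
  · have e : NU = fun z => ∫ u in Ioi (0 : ℝ), Fz 0 z u := funext NU_eq
    rw [e]
    exact h
  · filter_upwards [ae_restrict_mem measurableSet_Ioi] with u hu w hw
    refine norm_Fz_le le_rfl ?_ (by positivity) (le_of_lt hu)
    have h1 : |w.re - z.re| ≤ 1 := by
      have h2 := Complex.abs_re_le_norm (w - z)
      rw [Complex.sub_re] at h2
      rw [Metric.mem_ball, dist_eq_norm] at hw
      linarith
    have h3 := (abs_le.1 h1).2
    have h4 := le_abs_self z.re
    linarith
  · refine ae_of_all _ fun u w _ => ?_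
    unfold Fz
    have h1 : HasDerivAt (fun w : ℂ => exp (w * u)) (exp (w * u) * u) w := by
      have := ((hasDerivAt_id w).mul_const (u : ℂ)).cexp
      simpa using this
    have h2 := h1.mul_const (om u : ℂ)
    simp only [pow_zero, one_mul, pow_one]
    refine h2.congr_deriv ?_
    ring

/-- the remainder -/
noncomputable def qq (z : ℂ) : ℂ := ∫ u in Ioc (0 : ℝ) 1, Fz 1 z u

theorem shift_Fz (z : ℂ) : ∫ u in Ioi (1 : ℝ), Fz 1 z u = exp z * NU z := by
  have h1 : ∫ u in Ioi (1 : ℝ), Fz 1 z u = ∫ u in Ioi (0 : ℝ), Fz 1 z (u + 1) := by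
    rw [← integral_indicator measurableSet_Ioi, ← integral_indicator measurableSet_Ioi,
      ← integral_add_right_eq_self _ (1 : ℝ)]
    congr 1
    funext u
    by_cases hu : 0 < u
    · rw [indicator_of_mem (by show (1 : ℝ) < u + 1; linarith), indicator_of_mem (by exact hu)]
    · rw [indicator_of_notMem (by
        intro h
        have : (1 : ℝ) < u + 1 := h
        linarith), indicator_of_notMem (by exact hu)]
  rw [h1, NU_eq, ← integral_const_mul]
  refine setIntegral_congr_fun measurableSet_Ioi fun u hu => ?_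
  have hu' : (0 : ℝ) ≤ u := le_of_lt hu
  have h2 : ((u + 1 : ℝ) : ℂ) * (om (u + 1) : ℂ) = (om u : ℂ) := by
    rw [← Complex.ofReal_mul, om_succ hu']
  unfold Fz
  simp only [pow_one, pow_zero, one_mul]
  rw [← h2]
  have h3 : exp (z * ((u + 1 : ℝ) : ℂ)) = exp z * exp (z * u) := by
    rw [← Complex.exp_add]
    congr 1
    push_cast
    ring
  rw [h3]
  ring

theorem NU_deriv' (z : ℂ) : HasDerivAt NU (exp z * NU z + qq z) z := by
  refine (NU_deriv z).congr_deriv ?_
  rw [← shift_Fz, qq, add_comm, ← setIntegral_union]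
  · rw [Ioc_union_Ioi_eq_Ioi zero_le_one]
  · exact Ioc_disjoint_Ioi le_rfl
  · exact measurableSet_Ioi
  · exact (Fz_int le_rfl z).mono_set Ioc_subset_Ioi_self
  · exact (Fz_int le_rfl z).mono_set (Ioi_subset_Ioi zero_le_one)

/-- the constant of the remainder -/
noncomputable def C0 : ℝ := Real.exp 1 + 1

theorem C0_pos : 0 < C0 := by unfold C0; positivity

theorem qq_le {z : ℂ} (hz : 0 ≤ z.re) : ‖qq z‖ ≤ C0 * Real.exp z.re := by
  have h := norm_setIntegral_le_of_norm_le_const (μ := volume) (s := Ioc (0 : ℝ) 1)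
    (f := Fz 1 z) (C := C0 * Real.exp z.re) (by simp) fun u hu => ?_
  · simpa [qq] using h
  · rw [norm_Fz 1 z hu.1.le, pow_one]
    have h1 := om_le_const hu.1.le
    have h2 : Real.exp (z.re * u) ≤ Real.exp z.re :=
      Real.exp_le_exp.2 (mul_le_of_le_one_right hz hu.2)
    calc u * (Real.exp (z.re * u) * om u) ≤ 1 * (Real.exp z.re * C0) := by
          apply mul_le_mul hu.2 _ _ zero_le_one
          · exact mul_le_mul h2 h1 (om_nonneg hu.1.le) (Real.exp_pos _).le
          · exact mul_nonneg (Real.exp_pos _).le (om_nonneg hu.1.le)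
      _ = _ := by ring

/-- `f z = e^{-e^z} NU z` -/
noncomputable def ff (z : ℂ) : ℂ := exp (-exp z) * NU z

theorem ff_deriv (z : ℂ) : HasDerivAt ff (exp (-exp z) * qq z) z := by
  have h1 : HasDerivAt (fun z : ℂ => exp (-exp z)) (exp (-exp z) * (-exp z)) z :=
    ((Complex.hasDerivAt_exp z).neg).cexp
  have h2 := h1.mul (NU_deriv' z)
  refine h2.congr_deriv ?_
  ring

theorem norm_ff' {z : ℂ} (hz : 0 ≤ z.re) : ‖exp (-exp z) * qq z‖ ≤
    C0 * Real.exp z.re * Real.exp (-(Real.exp z.re * Real.cos z.im)) := by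
  rw [norm_mul, Complex.norm_exp, mul_comm]
  have h1 : (-exp z).re = -(Real.exp z.re * Real.cos z.im) := by
    rw [Complex.neg_re, Complex.exp_re]
  rw [h1]
  exact mul_le_mul_of_nonneg_right (qq_le hz) (Real.exp_pos _).le

end Pool.Agent.W349.UR
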